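import Pool.Agent.Helper52.C2.Goals

/-!
Packet C2-ALG (project C2): nonnegativity, affine kernels, slots.
-/

namespace Pool.Agent.Helper58.C2

open LaurentPolynomial
open _root_.Pool.Agent.Helper52.C2

/-- nonnegative coefficients -/
def NN (f : ℝ[T;T⁻¹]) : Prop := ∀ i, 0 ≤ f.coeff i

theorem nn_add {f g : ℝ[T;T⁻¹]} (hf : NN f) (hg : NN g) : NN (f + g) := by
  intro i
  have : (f + g).coeff i = f.coeff i + g.coeff i := rfl
  rw [this]
  exact add_nonneg (hf i) (hg i)

theorem nn_mul {f g : ℝ[T;T⁻¹]} (hf : NN f) (hg : NN g) : NN (f * g) := by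
  intro i
  classical
  rw [AddMonoidAlgebra.coeff_mul]
  apply Finset.sum_nonneg
  intro a _
  apply Finset.sum_nonneg
  intro b _
  dsimp only
  split_ifs
  · exact mul_nonneg (hf _) (hg _)
  · exact le_refl _

theorem nn_T (n : ℤ) : NN (T n) := by
  intro i
  have : (T n : ℝ[T;T⁻¹]).coeff i = if n = i then 1 else 0 := by
    classical
    exact Finsupp.single_apply
  rw [this]
  split_ifs <;> norm_num

theorem nn_one : NN (1 : ℝ[T;T⁻¹]) := by
  have := nn_T 0
  rwa [T_zero] at this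

theorem nn_zero : NN (0 : ℝ[T;T⁻¹]) := by
  intro i
  exact le_refl _

theorem nn_geo (n : ℤ) (h : 0 ≤ n) : NN (geo n) := by
  unfold geo
  rw [if_pos h]
  generalize n.toNat = k
  induction k with
  | zero => simpa using nn_zero
  | succ k ih =>
    rw [Finset.sum_range_succ]
    exact nn_add ih (nn_T _)

theorem geo_zero : geo 0 = 0 := by simp [geo]

theorem geo_one : geo 1 = 1 := by simp [geo]

theorem U0L : (U 0).L = 1 := rfl
theorem U0R : (U 0).R = 1 := T_zero
theorem U0F : (U 0).F = 0 := geo_zero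
theorem U1L : (U 1).L = 1 := rfl
theorem U1R : (U 1).R = T 1 := rfl
theorem U1F : (U 1).F = 1 := geo_one

theorem mulL (A B : Tg) : (A.mul B).L = A.L * B.L := rfl
theorem mulR (A B : Tg) : (A.mul B).R = A.R * B.R := rfl
theorem mulF (A B : Tg) : (A.mul B).F = A.R * B.F + A.F * B.L := rfl

theorem goalNonneg : GoalNonneg := by
  refine ⟨fun A B hA hB => ⟨?_, ?_, ?_⟩, fun n hn => ⟨?_, ?_, ?_⟩⟩
  · exact nn_mul hA.L hB.L
  · exact nn_mul hA.R hB.R
  · exact nn_add (nn_mul hA.R hB.F) (nn_mul hA.F hB.L)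
  · exact nn_one
  · exact nn_T n
  · exact nn_geo n hn

theorem affK1 : Affine K1 := by
  intro a k S
  have h := S.rel
  fin_cases k
  · simp [K1, mulL, mulR, mulF, U0L, U0R, U0F, U1L, U1R, U1F, Function.update_apply]
  · simp [K1, mulL, mulR, mulF, U0L, U0R, U0F, U1L, U1R, U1F, Function.update_apply]
    linear_combination (-((a 0).F * (a 2).L)) * h
  · simp [K1, mulL, mulR, mulF, U0L, U0R, U0F, U1L, U1R, U1F, Function.update_apply]
    linear_combination (-((a 0).R * (a 1).F + (a 0).F * (a 1).L)) * h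

theorem affK2 : Affine K2 := by
  intro a k S
  have h := S.rel
  fin_cases k
  · simp [K2, mulL, mulR, mulF, U0L, U0R, U0F, U1L, U1R, U1F, Function.update_apply]
    ring
  · simp [K2, mulL, mulR, mulF, U0L, U0R, U0F, U1L, U1R, U1F, Function.update_apply]
    linear_combination (-((a 0).F * (a 2).F * (a 3).F)) * h
  · simp [K2, mulL, mulR, mulF, U0L, U0R, U0F, U1L, U1R, U1F, Function.update_apply]
    ring
  · simp [K2, mulL, mulR, mulF, U0L, U0R, U0F, U1L, U1R, U1F, Function.update_apply]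
    linear_combination (-((a 0).F * (a 1).F * (a 2).F)) * h

theorem affK3 : Affine K3 := by
  intro a k S
  have h := S.rel
  fin_cases k
  · simp [K3, mulL, mulR, mulF, U0L, U0R, U0F, U1L, U1R, U1F, Function.update_apply]
    ring
  · simp [K3, mulL, mulR, mulF, U0L, U0R, U0F, U1L, U1R, U1F, Function.update_apply]
    linear_combination (-((a 0).F * ((a 2).R * (a 3).F + (a 2).F * (a 3).L))) * h
  · simp [K3, mulL, mulR, mulF, U0L, U0R, U0F, U1L, U1R, U1F, Function.update_apply]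
    ring
  · simp [K3, mulL, mulR, mulF, U0L, U0R, U0F, U1L, U1R, U1F, Function.update_apply]
    linear_combination (-((a 2).F * ((a 0).R * (a 1).F + (a 0).F * (a 1).L))) * h

theorem nonneg_of {S : Tg} {L R F : ℝ[T;T⁻¹]} (hL : S.L = L) (hR : S.R = R) (hF : S.F = F)
    (nL : NN L) (nR : NN R) (nF : NN F) : S.Nonneg := by
  subst hL hR hF
  exact ⟨nL, nR, nF⟩

theorem slotK1 (a : Fin 3 → Tg) : slot K1 a 0 = (a 1).mul (a 2) ∧
    slot K1 a 1 = (a 0).mul (a 2) ∧ slot K1 a 2 = (a 0).mul (a 1) := by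
  have r0 := (a 0).rel
  have r1 := (a 1).rel
  have r2 := (a 2).rel
  refine ⟨?_, ?_, ?_⟩
  · apply Tg.ext
    · simp [slot, K1, mulL, mulR, mulF, U0L, U0R, U0F, U1L, U1R, U1F, Function.update_apply]
    · simp [slot, K1, mulL, mulR, mulF, U0L, U0R, U0F, U1L, U1R, U1F, Function.update_apply]
      linear_combination (-(a 2).L) * r1 - (a 1).R * r2
    · simp [slot, K1, mulL, mulR, mulF, U0L, U0R, U0F, U1L, U1R, U1F, Function.update_apply]
  · apply Tg.ext
    · simp [slot, K1, mulL, mulR, mulF, U0L, U0R, U0F, U1L, U1R, U1F, Function.update_apply]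
      linear_combination (a 2).L * r0
    · simp [slot, K1, mulL, mulR, mulF, U0L, U0R, U0F, U1L, U1R, U1F, Function.update_apply]
      linear_combination (-(a 0).R) * r2
    · simp [slot, K1, mulL, mulR, mulF, U0L, U0R, U0F, U1L, U1R, U1F, Function.update_apply]
  · apply Tg.ext
    · simp [slot, K1, mulL, mulR, mulF, U0L, U0R, U0F, U1L, U1R, U1F, Function.update_apply]
      linear_combination (a 0).R * r1 + (a 1).L * r0
    · simp [slot, K1, mulL, mulR, mulF, U0L, U0R, U0F, U1L, U1R, U1F, Function.update_apply]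
      ring
    · simp [slot, K1, mulL, mulR, mulF, U0L, U0R, U0F, U1L, U1R, U1F, Function.update_apply]

theorem slotK2_3 (a : Fin 4 → Tg) :
    slot K2 a 3 = bes (((a 0).mul (a 1)).F) ((a 0).F * (a 1).F) (a 2) := by
  have r2 := (a 2).rel
  apply Tg.ext
  · simp [slot, K2, bes, mulL, mulR, mulF, U0L, U0R, U0F, U1L, U1R, U1F, Function.update_apply]
    linear_combination ((a 0).F * (a 1).F) * r2
  · simp [slot, K2, bes, mulL, mulR, mulF, U0L, U0R, U0F, U1L, U1R, U1F, Function.update_apply]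
    ring
  · simp [slot, K2, bes, mulL, mulR, mulF, U0L, U0R, U0F, U1L, U1R, U1F, Function.update_apply]

theorem slotK3_3 (a : Fin 4 → Tg) :
    slot K3 a 3 = bes (T 1 * ((a 0).F * (a 1).F)) (((a 0).mul (a 1)).F) (a 2) := by
  have r2 := (a 2).rel
  apply Tg.ext
  · simp [slot, K3, bes, mulL, mulR, mulF, U0L, U0R, U0F, U1L, U1R, U1F, Function.update_apply]
    linear_combination ((a 0).R * (a 1).F + (a 0).F * (a 1).L) * r2
  · simp [slot, K3, bes, mulL, mulR, mulF, U0L, U0R, U0F, U1L, U1R, U1F, Function.update_apply]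
    ring
  · simp [slot, K3, bes, mulL, mulR, mulF, U0L, U0R, U0F, U1L, U1R, U1F, Function.update_apply]

theorem goalSlotEq : GoalSlotEq :=
  ⟨fun a => (slotK1 a).2.2, slotK2_3, slotK3_3⟩

theorem bes_nonneg {A B : ℝ[T;T⁻¹]} {S : Tg} (hA : NN A) (hB : NN B) (hS : S.Nonneg) :
    (bes A B S).Nonneg :=
  ⟨nn_add (nn_mul hB hS.L) (nn_mul hA hS.F), nn_add (nn_mul hB hS.R) (nn_mul hA hS.F),
    nn_mul hB hS.F⟩

theorem mul_nonneg' {A B : Tg} (hA : A.Nonneg) (hB : B.Nonneg) : (A.mul B).Nonneg :=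
  goalNonneg.1 A B hA hB

theorem slotNonnegK1 : SlotNonneg K1 := by
  intro a k h
  fin_cases k
  · change (slot K1 a 0).Nonneg
    rw [(slotK1 a).1]
    exact mul_nonneg' (h _) (h _)
  · change (slot K1 a 1).Nonneg
    rw [(slotK1 a).2.1]
    exact mul_nonneg' (h _) (h _)
  · change (slot K1 a 2).Nonneg
    rw [(slotK1 a).2.2]
    exact mul_nonneg' (h _) (h _)

theorem slotK2_0 (a : Fin 4 → Tg) :
    slot K2 a 0 = bes (((a 2).mul (a 3)).F) ((a 2).F * (a 3).F) (a 1) := by
  have r1 := (a 1).rel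
  apply Tg.ext
  · simp [slot, K2, bes, mulL, mulR, mulF, U0L, U0R, U0F, U1L, U1R, U1F, Function.update_apply]
    ring
  · simp [slot, K2, bes, mulL, mulR, mulF, U0L, U0R, U0F, U1L, U1R, U1F, Function.update_apply]
    linear_combination (-((a 2).F * (a 3).F)) * r1
  · simp [slot, K2, bes, mulL, mulR, mulF, U0L, U0R, U0F, U1L, U1R, U1F, Function.update_apply]
    ring

theorem slotK2_1 (a : Fin 4 → Tg) :
    slot K2 a 1 = bes (((a 2).mul (a 3)).F) ((a 2).F * (a 3).F) (a 0) := by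
  have r0 := (a 0).rel
  apply Tg.ext
  · simp [slot, K2, bes, mulL, mulR, mulF, U0L, U0R, U0F, U1L, U1R, U1F, Function.update_apply]
    linear_combination ((a 2).F * (a 3).F) * r0
  · simp [slot, K2, bes, mulL, mulR, mulF, U0L, U0R, U0F, U1L, U1R, U1F, Function.update_apply]
    ring
  · simp [slot, K2, bes, mulL, mulR, mulF, U0L, U0R, U0F, U1L, U1R, U1F, Function.update_apply]
    ring

theorem slotK2_2 (a : Fin 4 → Tg) :
    slot K2 a 2 = bes (((a 0).mul (a 1)).F) ((a 0).F * (a 1).F) (a 3) := by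
  have r3 := (a 3).rel
  apply Tg.ext
  · simp [slot, K2, bes, mulL, mulR, mulF, U0L, U0R, U0F, U1L, U1R, U1F, Function.update_apply]
    ring
  · simp [slot, K2, bes, mulL, mulR, mulF, U0L, U0R, U0F, U1L, U1R, U1F, Function.update_apply]
    linear_combination (-((a 0).F * (a 1).F)) * r3
  · simp [slot, K2, bes, mulL, mulR, mulF, U0L, U0R, U0F, U1L, U1R, U1F, Function.update_apply]

theorem slotNonnegK2 : SlotNonneg K2 := by
  intro a k h
  have h01 := (mul_nonneg' (h 0) (h 1)).F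
  have h23 := (mul_nonneg' (h 2) (h 3)).F
  fin_cases k
  · change (slot K2 a 0).Nonneg
    rw [slotK2_0]
    exact bes_nonneg h23 (nn_mul (h 2).F (h 3).F) (h 1)
  · change (slot K2 a 1).Nonneg
    rw [slotK2_1]
    exact bes_nonneg h23 (nn_mul (h 2).F (h 3).F) (h 0)
  · change (slot K2 a 2).Nonneg
    rw [slotK2_2]
    exact bes_nonneg h01 (nn_mul (h 0).F (h 1).F) (h 3)
  · change (slot K2 a 3).Nonneg
    rw [slotK2_3]
    exact bes_nonneg h01 (nn_mul (h 0).F (h 1).F) (h 2)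

theorem slotK3_0 (a : Fin 4 → Tg) :
    slot K3 a 0 = bes (T 1 * ((a 2).F * (a 3).F)) (((a 2).mul (a 3)).F) (a 1) := by
  have r1 := (a 1).rel
  apply Tg.ext
  · simp [slot, K3, bes, mulL, mulR, mulF, U0L, U0R, U0F, U1L, U1R, U1F, Function.update_apply]
    ring
  · simp [slot, K3, bes, mulL, mulR, mulF, U0L, U0R, U0F, U1L, U1R, U1F, Function.update_apply]
    linear_combination (-((a 2).R * (a 3).F + (a 2).F * (a 3).L)) * r1
  · simp [slot, K3, bes, mulL, mulR, mulF, U0L, U0R, U0F, U1L, U1R, U1F, Function.update_apply]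
    ring

theorem slotK3_1 (a : Fin 4 → Tg) :
    slot K3 a 1 = bes (T 1 * ((a 2).F * (a 3).F)) (((a 2).mul (a 3)).F) (a 0) := by
  have r0 := (a 0).rel
  apply Tg.ext
  · simp [slot, K3, bes, mulL, mulR, mulF, U0L, U0R, U0F, U1L, U1R, U1F, Function.update_apply]
    linear_combination ((a 2).R * (a 3).F + (a 2).F * (a 3).L) * r0
  · simp [slot, K3, bes, mulL, mulR, mulF, U0L, U0R, U0F, U1L, U1R, U1F, Function.update_apply]
    ring
  · simp [slot, K3, bes, mulL, mulR, mulF, U0L, U0R, U0F, U1L, U1R, U1F, Function.update_apply]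
    ring

theorem slotK3_2 (a : Fin 4 → Tg) :
    slot K3 a 2 = bes (T 1 * ((a 0).F * (a 1).F)) (((a 0).mul (a 1)).F) (a 3) := by
  have r3 := (a 3).rel
  apply Tg.ext
  · simp [slot, K3, bes, mulL, mulR, mulF, U0L, U0R, U0F, U1L, U1R, U1F, Function.update_apply]
    ring
  · simp [slot, K3, bes, mulL, mulR, mulF, U0L, U0R, U0F, U1L, U1R, U1F, Function.update_apply]
    linear_combination (-((a 0).R * (a 1).F + (a 0).F * (a 1).L)) * r3
  · simp [slot, K3, bes, mulL, mulR, mulF, U0L, U0R, U0F, U1L, U1R, U1F, Function.update_apply]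

theorem slotNonnegK3 : SlotNonneg K3 := by
  intro a k h
  have h01 := (mul_nonneg' (h 0) (h 1)).F
  have h23 := (mul_nonneg' (h 2) (h 3)).F
  fin_cases k
  · change (slot K3 a 0).Nonneg
    rw [slotK3_0]
    exact bes_nonneg (nn_mul (nn_T 1) (nn_mul (h 2).F (h 3).F)) h23 (h 1)
  · change (slot K3 a 1).Nonneg
    rw [slotK3_1]
    exact bes_nonneg (nn_mul (nn_T 1) (nn_mul (h 2).F (h 3).F)) h23 (h 0)
  · change (slot K3 a 2).Nonneg
    rw [slotK3_2]
    exact bes_nonneg (nn_mul (nn_T 1) (nn_mul (h 0).F (h 1).F)) h01 (h 3)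
  · change (slot K3 a 3).Nonneg
    rw [slotK3_3]
    exact bes_nonneg (nn_mul (nn_T 1) (nn_mul (h 0).F (h 1).F)) h01 (h 2)

theorem goalAff : GoalAff :=
  ⟨⟨affK1, slotNonnegK1⟩, ⟨affK2, slotNonnegK2⟩, ⟨affK3, slotNonnegK3⟩⟩

theorem goalAlg : GoalNonneg ∧ GoalAff ∧ GoalSlotEq := ⟨goalNonneg, goalAff, goalSlotEq⟩

end Pool.Agent.Helper58.C2
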